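import Mathlib

set_option autoImplicit false

namespace Pool.Agent.Results.MP_db21b4_co.FiveVertices

open Finset

/-- `R` is an orientation of `G`: every edge gets exactly one of its two directions, and there are
no other arcs. -/
def IsOrientation {V : Type} (G : SimpleGraph V) (R : V → V → Prop) : Prop :=
  (∀ u v, R u v → ¬ R v u) ∧ ∀ u v, G.Adj u v ↔ (R u v ∨ R v u)

/-- `R` contains a (not necessarily induced) copy of the oriented graph `H`. -/
def Contains {V W : Type} (R : V → V → Prop) (H : W → W → Prop) : Prop :=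
  ∃ f : W → V, Function.Injective f ∧ ∀ a b, H a b → R (f a) (f b)

/-- `D(G,H)`: the number of orientations of `G` without a copy of `H`. -/
noncomputable def D {V W : Type} (G : SimpleGraph V) (H : W → W → Prop) : ℕ :=
  {R : V → V → Prop | IsOrientation G R ∧ ¬ Contains R H}.ncard

/-- `D(n,H)`: the maximum of `D(G,H)` over all graphs `G` on `n` vertices. -/
noncomputable def Dmax {W : Type} (n : ℕ) (H : W → W → Prop) : ℕ :=
  sSup {d | ∃ G : SimpleGraph (Fin n), d = D G H}

/-- The bowtie: the triangles `0 1 2` and `0 3 4` with common vertex `0`, the centre. -/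
def bowtie : SimpleGraph (Fin 5) :=
  SimpleGraph.fromRel fun a b => a = 0 ∨ (a = 1 ∧ b = 2) ∨ (a = 3 ∧ b = 4)

/-- An orientation of the bowtie in which exactly three of the four edges at the centre are
directed towards the centre (exactly one, the edge to `w`, is directed away from it). -/
def ThreeIn (H : Fin 5 → Fin 5 → Prop) : Prop :=
  IsOrientation bowtie H ∧ ∃ w, w ≠ 0 ∧ H 0 w ∧ ∀ v, v ≠ 0 → v ≠ w → H v 0

/-- An orientation of the bowtie in which exactly three of the four edges at the centre are
directed away from the centre. -/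
def ThreeOut (H : Fin 5 → Fin 5 → Prop) : Prop :=
  IsOrientation bowtie H ∧ ∃ w, w ≠ 0 ∧ H w 0 ∧ ∀ v, v ≠ 0 → v ≠ w → H 0 v

/-- The statement asked for in Q1. -/
def Question : Prop :=
  ∀ H : Fin 5 → Fin 5 → Prop, ThreeIn H ∨ ThreeOut H →
    ∀ n : ℕ, Dmax n H = 2 ^ SimpleGraph.extremalNumber n bowtie

/-! ### The Turan number `ex(5, B)` -/

instance : DecidableRel bowtie.Adj := by
  unfold bowtie
  infer_instance

/-- the fifteen bowties of `K_5` -/
def bows : List (Fin 5 → Fin 5) :=
  [![0, 1, 2, 3, 4], ![0, 1, 3, 2, 4], ![0, 1, 4, 2, 3], ![1, 0, 2, 3, 4], ![1, 0, 3, 2, 4],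
   ![1, 0, 4, 2, 3], ![2, 0, 1, 3, 4], ![2, 0, 3, 1, 4], ![2, 0, 4, 1, 3], ![3, 0, 1, 2, 4],
   ![3, 0, 2, 1, 4], ![3, 0, 4, 1, 2], ![4, 0, 1, 2, 3], ![4, 0, 2, 1, 3], ![4, 0, 3, 1, 2]]

/-- the six edges of the bowtie -/
def bedges : List (Fin 5 × Fin 5) := [(0, 1), (0, 2), (0, 3), (0, 4), (1, 2), (3, 4)]

/-- `g` avoids the pair `a b` -/
def misses (g : Fin 5 → Fin 5) (a b : Fin 5) : Bool :=
  bedges.all fun q => !((g q.1 == a && g q.2 == b) || (g q.1 == b && g q.2 == a))

lemma misses_exists : ∀ a b c d : Fin 5, (bows.any fun g => misses g a b && misses g c d) = true := by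
  decide +kernel

lemma bows_inj : ∀ g ∈ bows, Function.Injective g := by
  decide +kernel

lemma bedges_spec : ∀ a b : Fin 5, bowtie.Adj a b → (a, b) ∈ bedges ∨ (b, a) ∈ bedges := by
  decide +kernel

lemma cover_two {α : Type} [DecidableEq α] [Inhabited α] (N : Finset α) (h : N.card ≤ 2) :
    ∃ e f : α, N ⊆ {e, f} := by
  rcases Nat.lt_or_ge N.card 1 with h1 | h1
  · have : N = ∅ := Finset.card_eq_zero.1 (by omega)
    exact ⟨default, default, by rw [this]; exact Finset.empty_subset _⟩
  · rcases Nat.lt_or_ge N.card 2 with h2 | h2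
    · obtain ⟨a, ha⟩ := Finset.card_eq_one.1 (by omega : N.card = 1)
      exact ⟨a, a, by rw [ha]; simp⟩
    · obtain ⟨a, b, _, hab⟩ := Finset.card_eq_two.1 (by omega : N.card = 2)
      exact ⟨a, b, by rw [hab]⟩

lemma ex_le : SimpleGraph.extremalNumber 5 bowtie ≤ 7 := by
  classical
  have key := SimpleGraph.extremalNumber_le_iff (V := Fin 5) bowtie 7
  rw [Fintype.card_fin] at key
  rw [key]
  intro G _ hfree
  by_contra hcon
  push Not at hcon
  apply hfree
  have hsub : G.edgeFinset ⊆ (⊤ : SimpleGraph (Fin 5)).edgeFinset :=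
    SimpleGraph.edgeFinset_mono le_top
  have htop : (⊤ : SimpleGraph (Fin 5)).edgeFinset.card = 10 := by
    rw [SimpleGraph.card_edgeFinset_top_eq_card_choose_two, Fintype.card_fin]
    rfl
  have hN : ((⊤ : SimpleGraph (Fin 5)).edgeFinset \ G.edgeFinset).card ≤ 2 := by
    rw [Finset.card_sdiff_of_subset hsub, htop]
    omega
  obtain ⟨e, f, hef⟩ := cover_two _ hN
  induction e using Sym2.ind with | _ a b => ?_
  induction f using Sym2.ind with | _ c d => ?_
  have h := misses_exists a b c d
  rw [List.any_eq_true] at h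
  obtain ⟨g, hg, hm⟩ := h
  rw [Bool.and_eq_true] at hm
  have hginj := bows_inj g hg
  have hadj : ∀ q ∈ bedges, G.Adj (g q.1) (g q.2) := by
    intro q hq
    by_contra hnot
    have hne : g q.1 ≠ g q.2 := by
      intro h
      have h' := hginj h
      revert h' 
      fin_cases hq <;> decide
    have hmem : s(g q.1, g q.2) ∈ (⊤ : SimpleGraph (Fin 5)).edgeFinset \ G.edgeFinset := by
      rw [Finset.mem_sdiff, SimpleGraph.mem_edgeFinset, SimpleGraph.mem_edgeFinset,
        SimpleGraph.mem_edgeSet, SimpleGraph.mem_edgeSet]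
      exact ⟨hne, hnot⟩
    have h1 := hef hmem
    rw [Finset.mem_insert, Finset.mem_singleton] at h1
    unfold misses at hm
    rw [List.all_eq_true, List.all_eq_true] at hm
    have m1 := hm.1 q hq
    have m2 := hm.2 q hq
    simp only [Bool.not_eq_true', Bool.or_eq_false_iff, Bool.and_eq_false_iff, beq_eq_false_iff_ne,
      ne_eq] at m1 m2
    rcases h1 with h1 | h1
    · rw [Sym2.eq_iff] at h1
      rcases h1 with ⟨h1, h2⟩ | ⟨h1, h2⟩
      · rcases m1.1 with h | h
        · exact h h1
        · exact h h2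
      · rcases m1.2 with h | h
        · exact h h1
        · exact h h2
    · rw [Sym2.eq_iff] at h1
      rcases h1 with ⟨h1, h2⟩ | ⟨h1, h2⟩
      · rcases m2.1 with h | h
        · exact h h1
        · exact h h2
      · rcases m2.2 with h | h
        · exact h h1
        · exact h h2
  refine ⟨⟨⟨g, ?_⟩, hginj⟩⟩
  intro a b hab
  rcases bedges_spec a b hab with h | h
  · exact hadj _ h
  · exact (hadj _ h).symm

/-! ### Orientations of graphs on five vertices -/

/-- the orientation with code `x` of the graph `A`: for `u < v` the direction of the edge `u v`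
is given by the bit with number `v (v - 1) / 2 + u` of `x` -/
def rel (A : Fin 5 → Fin 5 → Bool) (x : ℕ) (u v : Fin 5) : Bool :=
  A u v && (if u.val < v.val then x.testBit (v.val * (v.val - 1) / 2 + u.val)
    else !x.testBit (u.val * (u.val - 1) / 2 + v.val))

/-- no copy of the pattern: `c → w`, and `z, a, b → c`, where `a b` is an edge, and `w → z`
(if `t` is true) or `z → w` (if `t` is false) -/
def good (A : Fin 5 → Fin 5 → Bool) (t : Bool) (x : ℕ) : Bool :=
  (List.finRange 5).all fun c => (List.finRange 5).all fun w => !(rel A x c w) ||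
    (List.finRange 5).all fun z => !(rel A x z c && (if t then rel A x w z else rel A x z w)) ||
      (List.finRange 5).all fun a => !(rel A x a c && !(a == z)) ||
        (List.finRange 5).all fun b => !(rel A x b c && !(b == z) && A a b)

/-- `K_5` -/
def A0 (u v : Fin 5) : Bool := !(u == v)

/-- `K_5` without the edge `3 4` -/
def A1 (u v : Fin 5) : Bool := !(u == v) && !(u == 3 && v == 4) && !(u == 4 && v == 3)

lemma count0 : ((List.range 1024).filter (good A0 true)).length = 344 := by
  decide +kernel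

lemma count1 : ((List.range 512).filter (good A1 false)).length = 264 := by
  decide +kernel

/-- the relation with code `x` -/
def relP (A : Fin 5 → Fin 5 → Bool) (x : ℕ) : Fin 5 → Fin 5 → Prop := fun u v => rel A x u v = true

lemma rel_adj {A : Fin 5 → Fin 5 → Bool} {x : ℕ} {u v : Fin 5} (h : rel A x u v = true) :
    A u v = true := by
  unfold rel at h
  rw [Bool.and_eq_true] at h
  exact h.1

/-- the graph with adjacency `A` -/
def gr (A : Fin 5 → Fin 5 → Bool) (hs : ∀ u v, A u v = A v u) (hi : ∀ u, A u u = false) :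
    SimpleGraph (Fin 5) where
  Adj u v := A u v = true
  symm := ⟨fun u v h => by rw [hs]; exact h⟩
  loopless := ⟨fun u h => by rw [hi] at h; exact Bool.noConfusion h⟩

lemma rel_orient (A : Fin 5 → Fin 5 → Bool) (hs : ∀ u v, A u v = A v u) (hi : ∀ u, A u u = false)
    (x : ℕ) : IsOrientation (gr A hs hi) (relP A x) := by
  constructor
  · intro u v h1 h2
    unfold relP at h1 h2
    have ha := rel_adj h1
    have hb := rel_adj h2
    unfold rel at h1 h2
    rw [ha, Bool.true_and] at h1
    rw [hb, Bool.true_and] at h2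
    rcases lt_trichotomy u.val v.val with h | h | h
    · rw [if_pos h] at h1
      rw [if_neg (by omega)] at h2
      rw [h1] at h2
      exact Bool.noConfusion h2
    · have : u = v := Fin.ext h
      subst this
      rw [hi] at ha
      exact Bool.noConfusion ha
    · rw [if_neg (by omega)] at h1
      rw [if_pos h] at h2
      rw [h2] at h1
      exact Bool.noConfusion h1
  · intro u v
    constructor
    · intro h
      have h' : A u v = true := h
      have h'' : A v u = true := by rw [hs]; exact h'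
      unfold relP rel
      rw [h', h'', Bool.true_and, Bool.true_and]
      rcases lt_trichotomy u.val v.val with k | k | k
      · rw [if_pos k, if_neg (by omega : ¬ v.val < u.val)]
        cases x.testBit (v.val * (v.val - 1) / 2 + u.val) <;> simp
      · have : u = v := Fin.ext k
        subst this
        rw [hi] at h'
        exact Bool.noConfusion h'
      · rw [if_neg (by omega : ¬ u.val < v.val), if_pos k]
        cases x.testBit (u.val * (u.val - 1) / 2 + v.val) <;> simp
    · rintro (h | h)
      · exact rel_adj h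
      · have := rel_adj h
        rw [hs] at this
        exact this

lemma rel_inj (A : Fin 5 → Fin 5 → Bool) (k : ℕ)
    (hA : ∀ i < k, ∃ u v : Fin 5, u.val < v.val ∧ v.val * (v.val - 1) / 2 + u.val = i ∧
      A u v = true) : Set.InjOn (relP A) {x | x < 2 ^ k} := by
  intro x hx y hy h
  apply Nat.eq_of_testBit_eq
  intro i
  rcases Nat.lt_or_ge i k with hi | hi
  · obtain ⟨u, v, huv, hidx, hadj⟩ := hA i hi
    have h1 : relP A x u v = relP A y u v := by rw [h]
    unfold relP rel at h1
    rw [hadj, Bool.true_and, Bool.true_and, if_pos huv, if_pos huv, hidx] at h1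
    rw [Bool.eq_iff_iff]
    exact iff_of_eq h1
  · have e : (2 : ℕ) ^ k ≤ 2 ^ i := Nat.pow_le_pow_right (by norm_num) hi
    rw [Nat.testBit_lt_two_pow (lt_of_lt_of_le hx e), Nat.testBit_lt_two_pow (lt_of_lt_of_le hy e)]

lemma good_spec {A : Fin 5 → Fin 5 → Bool} {t : Bool} {x : ℕ} (h : good A t x = true)
    {c w z a b : Fin 5} (h1 : rel A x c w = true) (h2 : rel A x z c = true)
    (h3 : (if t then rel A x w z else rel A x z w) = true) (h4 : rel A x a c = true)
    (h5 : a ≠ z) (h6 : rel A x b c = true) (h7 : b ≠ z) (h8 : A a b = true) : False := by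
  unfold good at h
  simp only [List.all_eq_true, List.mem_finRange, forall_const, Bool.or_eq_true,
    Bool.not_eq_true', Bool.and_eq_false_iff] at h
  rcases h c w with h | h
  · rw [h1] at h; exact Bool.noConfusion h
  · rcases h z with h | h
    · rcases h with h | h
      · rw [h2] at h; exact Bool.noConfusion h
      · rw [h3] at h; exact Bool.noConfusion h
    · rcases h a with h | h
      · rcases h with h | h
        · rw [h4] at h; exact Bool.noConfusion h
        · simp only [Bool.not_eq_false', beq_iff_eq] at h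
          exact h5 h
      · rcases h b with h | h
        · rcases h with h | h
          · rw [h6] at h; exact Bool.noConfusion h
          · simp only [Bool.not_eq_false', beq_iff_eq] at h
            exact h7 h
        · rw [h8] at h; exact Bool.noConfusion h

lemma bowtie_parts : ∀ w : Fin 5, w ≠ 0 → ∃ z a b : Fin 5, z ≠ 0 ∧ z ≠ w ∧ a ≠ 0 ∧ a ≠ w ∧
    b ≠ 0 ∧ b ≠ w ∧ a ≠ z ∧ b ≠ z ∧ bowtie.Adj w z ∧ bowtie.Adj a b := by
  decide +kernel

lemma D_ge (A : Fin 5 → Fin 5 → Bool) (hs : ∀ u v, A u v = A v u) (hi : ∀ u, A u u = false)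
    (k : ℕ) (hA : ∀ i < k, ∃ u v : Fin 5, u.val < v.val ∧ v.val * (v.val - 1) / 2 + u.val = i ∧
      A u v = true) (t : Bool) (H : Fin 5 → Fin 5 → Prop)
    (hno : ∀ x, good A t x = true → ¬ Contains (relP A x) H) :
    ((List.range (2 ^ k)).filter (good A t)).length ≤ D (gr A hs hi) H := by
  classical
  set S : Finset ℕ := (Finset.range (2 ^ k)).filter (fun x => good A t x = true) with hS
  have hlen : ((List.range (2 ^ k)).filter (good A t)).length = S.card := by
    have e : (List.range (2 ^ k)).filter (good A t) =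
        (List.range (2 ^ k)).filter (fun x => decide (good A t x = true)) := by
      congr 1
      funext x
      simp
    rw [e, hS]
    rfl
  rw [hlen, ← Set.ncard_coe_finset]
  have hinj : Set.InjOn (relP A) (S : Set ℕ) := by
    apply (rel_inj A k hA).mono
    intro x hx
    rw [hS, Finset.coe_filter] at hx
    exact Finset.mem_range.1 hx.1
  rw [← hinj.ncard_image]
  unfold D
  apply Set.ncard_le_ncard _ (Set.toFinite _)
  rintro R ⟨x, hx, rfl⟩
  rw [hS, Finset.coe_filter] at hx
  exact ⟨rel_orient A hs hi x, hno x hx.2⟩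

lemma le_Dmax {W : Type} (n : ℕ) (G : SimpleGraph (Fin n)) (H : W → W → Prop) :
    D G H ≤ Dmax n H := by
  unfold Dmax
  apply le_csSup
  · apply Set.Finite.bddAbove
    have : {d | ∃ G : SimpleGraph (Fin n), d = D G H} = Set.range (fun G : SimpleGraph (Fin n) => D G H) := by
      ext d
      constructor
      · rintro ⟨G, rfl⟩; exact ⟨G, rfl⟩
      · rintro ⟨G, rfl⟩; exact ⟨G, rfl⟩
    rw [this]
    exact Set.finite_range _
  · exact ⟨G, rfl⟩

lemma threeIn_case (H : Fin 5 → Fin 5 → Prop) (h : ThreeIn H) : 264 ≤ Dmax 5 H := by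
  obtain ⟨⟨_, ho⟩, w, hw0, h0w, hin⟩ := h
  obtain ⟨z, a, b, hz0, hzw, ha0, haw, hb0, hbw, haz, hbz, hwz, hab⟩ := bowtie_parts w hw0
  have hz := hin z hz0 hzw
  have ha := hin a ha0 haw
  have hb := hin b hb0 hbw
  have habA : ∀ (A : Fin 5 → Fin 5 → Bool) (hs : ∀ u v, A u v = A v u) (x : ℕ)
      (f : Fin 5 → Fin 5), (∀ a b, H a b → relP A x (f a) (f b)) → A (f a) (f b) = true := by
    intro A hs x f hf
    rcases (ho a b).1 hab with h | h
    · exact rel_adj (hf _ _ h)
    · have := rel_adj (hf _ _ h)
      rw [hs] at this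
      exact this
  rcases (ho w z).1 hwz with h | h
  · have h1 := D_ge A0 (by decide) (by decide) 10 (by decide +kernel) true H (by
      rintro x hx ⟨f, hfinj, hf⟩
      exact good_spec hx (hf _ _ h0w) (hf _ _ hz) (by
        rw [if_pos rfl]; exact hf _ _ h) (hf _ _ ha) (fun h => haz (hfinj h)) (hf _ _ hb)
        (fun h => hbz (hfinj h)) (habA A0 (by decide) x f hf))
    have h2 : (2 : ℕ) ^ 10 = 1024 := by norm_num
    rw [h2, count0] at h1
    exact le_trans (by norm_num) (h1.trans (le_Dmax 5 _ H))
  · have h1 := D_ge A1 (by decide) (by decide) 9 (by decide +kernel) false H (by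
      rintro x hx ⟨f, hfinj, hf⟩
      exact good_spec hx (hf _ _ h0w) (hf _ _ hz) (by
        rw [if_neg (by decide)]; exact hf _ _ h) (hf _ _ ha) (fun h => haz (hfinj h)) (hf _ _ hb)
        (fun h => hbz (hfinj h)) (habA A1 (by decide) x f hf))
    have h2 : (2 : ℕ) ^ 9 = 512 := by norm_num
    rw [h2, count1] at h1
    exact h1.trans (le_Dmax 5 _ H)

lemma D_rev {V W : Type} (G : SimpleGraph V) (H : W → W → Prop) :
    D G (fun a b => H b a) = D G H := by
  unfold D
  have hinj : Function.Injective (fun (R : V → V → Prop) => fun a b => R b a) := by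
    intro R R' h
    funext a b
    exact congrFun (congrFun h b) a
  rw [← Set.ncard_image_of_injective _ hinj]
  congr 1
  ext R
  constructor
  · rintro ⟨R', ⟨⟨h1, h2⟩, h3⟩, rfl⟩
    refine ⟨⟨fun u v h => h1 _ _ h, fun u v => ?_⟩, ?_⟩
    · rw [h2 u v, or_comm]
    · rintro ⟨f, hf, hf2⟩
      exact h3 ⟨f, hf, fun a b hab => hf2 b a hab⟩
  · rintro ⟨⟨h1, h2⟩, h3⟩
    refine ⟨fun a b => R b a, ⟨⟨fun u v h => h1 _ _ h, fun u v => ?_⟩, ?_⟩, rfl⟩
    · rw [h2 u v, or_comm]
    · rintro ⟨f, hf, hf2⟩
      exact h3 ⟨f, hf, fun a b hab => hf2 b a hab⟩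

lemma threeOut_case (H : Fin 5 → Fin 5 → Prop) (h : ThreeOut H) : 264 ≤ Dmax 5 H := by
  have h1 : ThreeIn (fun a b => H b a) := by
    obtain ⟨⟨h1, h2⟩, w, hw0, hw, hall⟩ := h
    exact ⟨⟨fun u v h => h1 _ _ h, fun u v => by rw [h2 u v, or_comm]⟩, w, hw0, hw, hall⟩
  have h2 := threeIn_case _ h1
  have h3 : Dmax 5 (fun a b => H b a) = Dmax 5 H := by
    unfold Dmax
    congr 1
    ext d
    constructor
    · rintro ⟨G, rfl⟩; exact ⟨G, D_rev G H⟩
    · rintro ⟨G, rfl⟩; exact ⟨G, (D_rev G H).symm⟩
  rwa [h3] at h2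

/-- There are orientations of both kinds. -/
lemma exists_threeIn : ∃ H, ThreeIn H := by
  refine ⟨fun a b => (a = 0 ∧ b = 4) ∨ (b = 0 ∧ (a = 1 ∨ a = 2 ∨ a = 3)) ∨ (a = 1 ∧ b = 2) ∨
    (a = 3 ∧ b = 4), ⟨?_, ?_⟩, 4, ?_, ?_, ?_⟩
  · decide +kernel
  · decide +kernel
  · decide +kernel
  · decide +kernel
  · decide +kernel

lemma pow_bound (N : ℕ) (h : N ≤ 7) : 2 ^ N ≤ 128 := by
  interval_cases N <;> norm_num

lemma contra (N M : ℕ) (h : N ≤ 7) (h1 : M = 2 ^ N) (h2 : 264 ≤ M) : False := by
  have := pow_bound N h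
  omega

/-- **Disproof of Q1.** For every orientation `H` of the bowtie with exactly three of the four
edges at the centre directed towards the centre, and for every one with exactly three directed
away from it, `2 ^ ex(5, B) ≤ 128 < 264 ≤ D(5, H)`. In particular the statement asked for in Q1
is false. -/
theorem result :
    (∀ H : Fin 5 → Fin 5 → Prop, ThreeIn H ∨ ThreeOut H →
      2 ^ SimpleGraph.extremalNumber 5 bowtie ≤ 128 ∧ 264 ≤ Dmax 5 H) ∧
    ¬ Question := by
  refine ⟨?_, ?_⟩
  · rintro H (h | h)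
    · exact ⟨pow_bound _ ex_le, threeIn_case H h⟩
    · exact ⟨pow_bound _ ex_le, threeOut_case H h⟩
  · intro hq
    obtain ⟨H, hH⟩ := exists_threeIn
    exact contra _ _ ex_le (hq H (Or.inl hH) 5) (threeIn_case H hH)

end Pool.Agent.Results.MP_db21b4_co.FiveVertices
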